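import Pool.Agent.Lib.MP_6bc78b_nt.MS.L.Iface

set_option autoImplicit false

open Filter Topology Finset

namespace Pool.Agent.Lib.MP_6bc78b_nt.MS.L.H6

theorem sum_divisors_prime_mul {p m : ℕ} (hp : p.Prime) (hm : Nat.Coprime m p)
    (f : ℕ → ℝ) :
    ∑ d ∈ (p * m).divisors, f d = ∑ d ∈ m.divisors, f d + ∑ d ∈ m.divisors, f (p * d) := by
  have hinj : Set.InjOn (fun d => p * d) (m.divisors : Set ℕ) :=
    fun a _ b _ h => Nat.eq_of_mul_eq_mul_left hp.pos h
  have hdisj : Disjoint m.divisors (m.divisors.image (fun d => p * d)) := by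
    rw [Finset.disjoint_left]
    intro d hd hd'
    rw [Finset.mem_image] at hd'
    obtain ⟨e, _, rfl⟩ := hd'
    have h1 : p ∣ m := (Dvd.intro e rfl).trans (Nat.dvd_of_mem_divisors hd)
    exact (Nat.Prime.coprime_iff_not_dvd hp).1 hm.symm h1
  have hU : (p * m).divisors = m.divisors ∪ m.divisors.image (fun d => p * d) := by
    have h := Nat.divisors_mul p m
    rw [h, hp.divisors]
    ext d
    rw [Finset.mem_mul, Finset.mem_union, Finset.mem_image]
    constructor
    · rintro ⟨a, ha, b, hb, rfl⟩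
      rw [Finset.mem_insert, Finset.mem_singleton] at ha
      rcases ha with rfl | rfl
      · left; rwa [one_mul]
      · right; exact ⟨b, hb, rfl⟩
    · rintro (h | ⟨b, hb, rfl⟩)
      · exact ⟨1, by simp, d, h, one_mul d⟩
      · exact ⟨p, by simp, b, hb, rfl⟩
  rw [hU, Finset.sum_union hdisj, Finset.sum_image hinj]

/-- the identity for one `a` with smallest prime factor `p` -/
theorem rea_prime (κ1 κ0 th c1 c2 T A : ℝ) (hT : 1 < T) {p : ℕ} (hp : p.Prime) :
    ∑ m ∈ (Finset.Icc 1 ⌊T ^ th⌋₊).filter Squarefree,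
      PP c1 c2 (1 - Real.log m / (th * Real.log T)) / (m.totient : ℝ) * ∑ d ∈ m.divisors,
        ((ArithmeticFunction.moebius d : ℤ) : ℝ) *
          (if p ∣ d then (p : ℝ) * ET κ1 κ0 T (d / p) (Real.log m - A)
            else ET κ1 κ0 T d (Real.log m - A)) =
    Mn κ1 κ0 th c1 c2 T p 1 (-A) - Mn κ1 κ0 th c1 c2 T p p (Real.log p - A) := by
  classical
  have hp0 : (0 : ℝ) < p := by exact_mod_cast hp.pos
  have hT0 : 0 < T := by linarith
  have hy : 0 ≤ T ^ th := (Real.rpow_pos_of_pos hT0 th).le
  set F : ℕ → ℝ := fun m => PP c1 c2 (1 - Real.log m / (th * Real.log T)) / (m.totient : ℝ) *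
    ∑ d ∈ m.divisors, ((ArithmeticFunction.moebius d : ℤ) : ℝ) *
      (if p ∣ d then (p : ℝ) * ET κ1 κ0 T (d / p) (Real.log m - A)
        else ET κ1 κ0 T d (Real.log m - A)) with hF
  change ∑ m ∈ (Finset.Icc 1 ⌊T ^ th⌋₊).filter Squarefree, F m = _
  rw [← Finset.sum_filter_add_sum_filter_not _ (fun m => Nat.Coprime m p)]
  rw [sub_eq_add_neg]
  congr 1
  · -- the part coprime to p
    rw [Mn, Finset.filter_filter, div_one]
    refine Finset.sum_congr rfl fun m hm => ?_
    rw [Finset.mem_filter] at hm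
    have hcop : Nat.Coprime m p := hm.2.2
    simp only [hF, Real.log_one, add_zero]
    congr 1
    rw [DT]
    refine Finset.sum_congr rfl fun d hd => ?_
    have hnd : ¬ p ∣ d := fun h => (Nat.Prime.coprime_iff_not_dvd hp).1 hcop.symm
      (h.trans (Nat.dvd_of_mem_divisors hd))
    rw [if_neg hnd, sub_eq_add_neg]
  · -- the multiples of p
    rw [Mn, ← Finset.sum_neg_distrib]
    symm
    refine Finset.sum_bij (fun m _ => p * m) ?_ ?_ ?_ ?_
    · intro m hm
      rw [Finset.mem_filter, Finset.mem_Icc] at hm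
      obtain ⟨⟨hm1, hm2⟩, hsq, hcop⟩ := hm
      rw [Finset.mem_filter, Finset.mem_filter, Finset.mem_Icc]
      have hle : (m : ℝ) ≤ T ^ th / p := (Nat.le_floor_iff (by positivity)).1 hm2
      refine ⟨⟨⟨Nat.mul_pos hp.pos hm1, ?_⟩, ?_⟩, ?_⟩
      · rw [Nat.le_floor_iff hy]
        rw [le_div_iff₀ hp0] at hle
        push_cast
        linarith
      · rw [Nat.squarefree_mul_iff]
        exact ⟨hcop.symm, hp.prime.squarefree, hsq⟩
      · intro h
        exact (Nat.Prime.coprime_iff_not_dvd hp).1 h.symm (Dvd.intro m rfl)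
    · intro a _ b _ h
      exact Nat.eq_of_mul_eq_mul_left hp.pos h
    · intro b hb
      rw [Finset.mem_filter, Finset.mem_filter, Finset.mem_Icc] at hb
      obtain ⟨⟨⟨hb1, hb2⟩, hsq⟩, hncop⟩ := hb
      have hdvd : p ∣ b := by
        by_contra h
        exact hncop ((Nat.Prime.coprime_iff_not_dvd hp).2 h).symm
      obtain ⟨m, rfl⟩ := hdvd
      have hm1 : 1 ≤ m := by
        rcases Nat.eq_zero_or_pos m with rfl | h
        · simp at hb1
        · exact h
      have hsm := (Nat.squarefree_mul_iff.1 hsq)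
      refine ⟨m, ?_, rfl⟩
      rw [Finset.mem_filter, Finset.mem_Icc]
      refine ⟨⟨hm1, ?_⟩, hsm.2.2, hsm.1.symm⟩
      rw [Nat.le_floor_iff (by positivity), le_div_iff₀ hp0]
      have := (Nat.le_floor_iff hy).1 hb2
      push_cast at this
      linarith
    · intro m hm
      rw [Finset.mem_filter, Finset.mem_Icc] at hm
      obtain ⟨⟨hm1, _⟩, _, hcop⟩ := hm
      have hm0 : (0 : ℝ) < m := by exact_mod_cast hm1
      have hφ : (0 : ℝ) < m.totient := by exact_mod_cast Nat.totient_pos.2 hm1
      have hlog : Real.log ((p * m : ℕ) : ℝ) = Real.log m + Real.log p := by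
        push_cast
        rw [Real.log_mul hp0.ne' hm0.ne', add_comm]
      have htot : (((p * m).totient : ℕ) : ℝ) = ((p : ℝ) - 1) * m.totient := by
        rw [Nat.totient_mul hcop.symm, Nat.totient_prime hp, Nat.cast_mul, Nat.cast_sub hp.one_le]
        push_cast; ring
      have hp1 : (0 : ℝ) < (p : ℝ) - 1 := by
        have : (2 : ℝ) ≤ p := by exact_mod_cast hp.two_le
        linarith
      have hsum : ∑ d ∈ (p * m).divisors, ((ArithmeticFunction.moebius d : ℤ) : ℝ) *
          (if p ∣ d then (p : ℝ) * ET κ1 κ0 T (d / p) (Real.log ((p * m : ℕ) : ℝ) - A)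
            else ET κ1 κ0 T d (Real.log ((p * m : ℕ) : ℝ) - A)) =
          -(((p : ℝ) - 1) * DT κ1 κ0 T m (Real.log m + (Real.log p - A))) := by
        rw [sum_divisors_prime_mul hp hcop]
        have e1 : ∑ d ∈ m.divisors, ((ArithmeticFunction.moebius d : ℤ) : ℝ) *
            (if p ∣ d then (p : ℝ) * ET κ1 κ0 T (d / p) (Real.log ((p * m : ℕ) : ℝ) - A)
              else ET κ1 κ0 T d (Real.log ((p * m : ℕ) : ℝ) - A)) =
            DT κ1 κ0 T m (Real.log m + (Real.log p - A)) := by
          rw [DT]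
          refine Finset.sum_congr rfl fun d hd => ?_
          have hnd : ¬ p ∣ d := fun h => (Nat.Prime.coprime_iff_not_dvd hp).1 hcop.symm
            (h.trans (Nat.dvd_of_mem_divisors hd))
          rw [if_neg hnd, hlog]
          congr 2
          ring
        have e2 : ∑ d ∈ m.divisors, ((ArithmeticFunction.moebius (p * d) : ℤ) : ℝ) *
            (if p ∣ p * d then (p : ℝ) * ET κ1 κ0 T (p * d / p) (Real.log ((p * m : ℕ) : ℝ) - A)
              else ET κ1 κ0 T (p * d) (Real.log ((p * m : ℕ) : ℝ) - A)) =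
            -((p : ℝ) * DT κ1 κ0 T m (Real.log m + (Real.log p - A))) := by
          rw [DT, Finset.mul_sum, ← Finset.sum_neg_distrib]
          refine Finset.sum_congr rfl fun d hd => ?_
          have hcd : Nat.Coprime p d := by
            rw [Nat.Prime.coprime_iff_not_dvd hp]
            exact fun h => (Nat.Prime.coprime_iff_not_dvd hp).1 hcop.symm
              (h.trans (Nat.dvd_of_mem_divisors hd))
          rw [if_pos (Dvd.intro d rfl), hlog, Nat.mul_div_cancel_left d hp.pos,
            ArithmeticFunction.isMultiplicative_moebius.map_mul_of_coprime hcd,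
            ArithmeticFunction.moebius_apply_prime hp]
          have e3 : Real.log m + Real.log p - A = Real.log m + (Real.log p - A) := by ring
          rw [e3]
          push_cast
          ring
        rw [e1, e2]
        ring
      simp only [hF]
      rw [hsum, hlog, htot]
      field_simp

/-- module REA -/
theorem rea : ReaStatement := by
  intro κ1 κ0 th c1 c2 lam T _ _ hT
  have h1 : ∀ m : ℕ, PP c1 c2 (1 - Real.log m / (th * Real.log T)) / (m.totient : ℝ) *
      ∑ d ∈ m.divisors, ((ArithmeticFunction.moebius d : ℤ) : ℝ) *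
        ETB κ1 κ0 lam T d (Real.log m) =
      ∑ a ∈ Finset.Icc 1 ⌊T ^ lam⌋₊, bb lam T a / a *
        (PP c1 c2 (1 - Real.log m / (th * Real.log T)) / (m.totient : ℝ) * ∑ d ∈ m.divisors,
        ((ArithmeticFunction.moebius d : ℤ) : ℝ) *
          (if a.minFac ∣ d then (a.minFac : ℝ) * ET κ1 κ0 T (d / a.minFac)
            (Real.log m - Real.log a)
            else ET κ1 κ0 T d (Real.log m - Real.log a))) := by
    intro m
    simp only [ETB, Finset.mul_sum]
    rw [Finset.sum_comm]
    refine Finset.sum_congr rfl fun a _ => Finset.sum_congr rfl fun d _ => ?_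
    ring
  rw [Finset.sum_congr rfl fun m _ => h1 m, Finset.sum_comm]
  refine Finset.sum_congr rfl fun a ha => ?_
  rw [← Finset.mul_sum]
  rcases eq_or_ne a 1 with rfl | ha1
  · have : bb lam T 1 = 0 := by
      simp only [bb, ArithmeticFunction.coe_mk, bbf]
      simp
    rw [this, zero_div, zero_mul, zero_mul]
  · rw [rea_prime κ1 κ0 th c1 c2 T (Real.log a) hT (Nat.minFac_prime ha1)]

end Pool.Agent.Lib.MP_6bc78b_nt.MS.L.H6
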